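import Pool.Agent.LibFub90.Main

/-!
# Fubini squares of generic ultrafilters for σ-closed quotients: a counterexample in ZFC

There is a σ-ideal `I` on a countable set `X` such that for every `P(X)/I`-generic ultrafilter `G`
one has `G <_T G · G` in `V[G]`. The ideal is nowhere maximal, so the forcing is nonatomic.

The universe of Lean is the ground model `V`; sentences about `V[G]` are expressed with the forcing
relation (`Pool.Agent.LibFub90.Forcing`). As `P(X)/I` adds no new subsets of `X` (third clause), `G`
and `G · G` are, in `V[G]`, subsets of the ground model sets `Set X` and `Set (X × X)`, and all
functions and cofinal sets occurring in the definition of the Tukey order are subsets of ground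
model sets; these are exactly the objects given by the names `SName`.
-/

namespace Pool.Agent.Results.MP_9c8ed6_lc.GenericNotIdempotent

open Fub90

/-- There are a countable set `X` and a nowhere maximal σ-ideal `I` on `X` such that `P(X)/I` adds
no new subsets of `X` and every condition forces `G ≤_T G · G` and not `G · G ≤_T G`. -/
theorem result : ∃ (X : Type) (_ : Countable X) (I : Idl X), IsSigma I ∧ NowhereMaximal I ∧
    NoNewSubsets I ∧ ∀ p : Cond I, Forces p (fAnd (GLeGG I) (fNot (GGLeG I))) :=
  Fub90.main

end Pool.Agent.Results.MP_9c8ed6_lc.GenericNotIdempotent
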